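import Pool.Agent.NTW.StmtsB

/-!
# NTW, row HSC: half space pairs (assembly)
-/

set_option autoImplicit false

open Matrix Filter Topology

namespace Pool.Agent.NTW.H16

open Pool.Agent.PFS Pool.Agent.PFJ Pool.Agent.NTS Pool.Agent.NTW

theorem hsc (hHSK : HskStmt) (hHB3 : Hb3Stmt) (hHCA : HcaStmt) : HscStmt := by
  intro n C Γ K c τ hD hN v v' ν M h
  obtain ⟨k, hk⟩ := hHSK n C Γ K c τ hD v v' ν M h
  have hτ := hHB3 n C Γ K c τ hD v v' ν M k hk
  obtain ⟨j, hj⟩ := hHCA n C Γ K c τ hD hN v v' ν M k hk hτ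
  exact ⟨j, k, hj⟩

end Pool.Agent.NTW.H16
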