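import Pool.Agent.NTW.StmtsD

/-!
# NTW, row RET: among many positions on one flat two are related by the stabiliser of the box
-/

set_option autoImplicit false

open Matrix Filter Topology

namespace Pool.Agent.NTW.H16

open Pool.Agent.PFS Pool.Agent.PFJ Pool.Agent.NTS Pool.Agent.NTW

variable {n K : ℕ}

theorem TN.symm {C : Set (V n)} {ε : ℝ} {w w' : Fin K → V n} (h : TN C ε w w') : TN C ε w' w := by
  intro i
  obtain ⟨h1, h2, h3, h4⟩ := h i
  refine ⟨?_, ?_, ?_, ?_⟩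
  · have e : ε • (∑ m, w' m) - (w' i - w i) = ε • (∑ m, w' m) + (w i - w' i) := by abel
    rw [e]
    exact h4
  · have e : ε • (∑ m, w' m) + (w' i - w i) = ε • (∑ m, w' m) - (w i - w' i) := by abel
    rw [e]
    exact h3
  · have e : ε • (∑ m, w m) - (w' i - w i) = ε • (∑ m, w m) + (w i - w' i) := by abel
    rw [e]
    exact h2
  · have e : ε • (∑ m, w m) + (w' i - w i) = ε • (∑ m, w m) - (w i - w' i) := by abel
    rw [e]
    exact h1

theorem TN.mono {C : Set (V n)} (hC : PCone C) {ε δ : ℝ} (hε : ε ≤ δ) {w w' : Fin K → V n}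
    (hw : ∑ i, w i ∈ closure C) (hw' : ∑ i, w' i ∈ closure C) (h : TN C ε w w') :
    TN C δ w w' := by
  intro i
  obtain ⟨h1, h2, h3, h4⟩ := h i
  have a1 : (δ - ε) • (∑ m, w m) ∈ closure C := hC.cl_smul hw (sub_nonneg.2 hε)
  have a2 : (δ - ε) • (∑ m, w' m) ∈ closure C := hC.cl_smul hw' (sub_nonneg.2 hε)
  refine ⟨?_, ?_, ?_, ?_⟩
  · have e : δ • (∑ m, w m) - (w i - w' i) =
        (ε • (∑ m, w m) - (w i - w' i)) + (δ - ε) • (∑ m, w m) := by
      rw [sub_smul]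
      abel
    rw [e]
    exact hC.cl_add h1 a1
  · have e : δ • (∑ m, w m) + (w i - w' i) =
        (ε • (∑ m, w m) + (w i - w' i)) + (δ - ε) • (∑ m, w m) := by
      rw [sub_smul]
      abel
    rw [e]
    exact hC.cl_add h2 a1
  · have e : δ • (∑ m, w' m) - (w i - w' i) =
        (ε • (∑ m, w' m) - (w i - w' i)) + (δ - ε) • (∑ m, w' m) := by
      rw [sub_smul]
      abel
    rw [e]
    exact hC.cl_add h3 a2
  · have e : δ • (∑ m, w' m) + (w i - w' i) =
        (ε • (∑ m, w' m) + (w i - w' i)) + (δ - ε) • (∑ m, w' m) := by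
      rw [sub_smul]
      abel
    rw [e]
    exact hC.cl_add h4 a2

theorem xt_resc (w : Fin K → V n) (t b : Fin K → ℝ) :
    xt (fun i => Real.exp (t i) • w i) b = xt w (fun i => t i + b i) := by
  unfold xt
  refine Finset.sum_congr rfl fun i _ => ?_
  rw [smul_smul, ← Real.exp_add, add_comm (b i)]

theorem xt_act (g : GL (Fin n) ℝ) (s : ℝ) (v : Fin K → V n) (b : Fin K → ℝ) :
    xt (fun i => s • act g (v i)) b = s • act g (xt v b) := by
  unfold xt
  rw [CC.act_sum, Finset.smul_sum]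
  refine Finset.sum_congr rfl fun i _ => ?_
  rw [CC.act_smul, smul_comm]

theorem xt_mem {C : Set (V n)} {w : Fin K → V n} (h : PES C w) (t : Fin K → ℝ) : xt w t ∈ C :=
  h.pos _ fun i => Real.exp_pos _

theorem sum_mem_C {C : Set (V n)} {w : Fin K → V n} (h : PES C w) : ∑ i, w i ∈ C := by
  have h1 := h.pos (fun _ => 1) fun _ => one_pos
  simpa using h1

theorem ret (hPAC : PacStmt) (hFSR : FsrStmt) (hTBX : TbxStmt) (hALW : AlwStmt) (hNRC : NrcStmt)
    (hCMW : CmwStmt) (hCNE : CneStmt) (hPIG : PigStmt) (hNAL : NalStmt) (hFNT : FntStmt) :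
    RetStmt := by
  intro n C Γ K c τ hD hN
  obtain ⟨ε, hε, hε8, hnrc⟩ := hNRC n C Γ K c τ hD hN
  obtain ⟨N, hpig⟩ := hPIG n C Γ K c τ hD ε hε
  obtain ⟨_, _, _, a, hτa, ha⟩ := hCNE K c τ hD.toTau hD.sym
  have hPC : PCone C := hD.toPCone
  have hCC : CC C Γ := hD.toCC
  refine ⟨N, fun w hw T => ?_⟩
  -- the translated positions
  set W : ℕ → Fin (N + 1) → Fin K → V n := fun s m i => Real.exp (T m i - s * a i) • w i with hW
  have hWT : ∀ s m, TT C Γ c (W s m) := fun s m =>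
    (hTBX n C Γ K c τ hD w hw).2.1 (fun i => Real.exp (T m i - s * a i)) fun i => Real.exp_pos _
  have hxtW : ∀ (s : ℕ) m b, xt (W s m) b = xt w (fun i => (T m i - s * a i) + b i) :=
    fun s m b => xt_resc w (fun i => T m i - s * a i) b
  have hWsW : ∀ s m, Ws C τ (W s m) = Ws C τ w := fun s m =>
    (hFSR n C hPC K τ w (fun i => Real.exp (T m i - s * a i)) (fun i => hw.pes.1.cl i)
      fun i => Real.exp_pos _).2.2
  choose m m' hmm g hg σ hσ hTN using fun s : ℕ => hpig (W s) (hWT s)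
  set U : ℕ → Fin K → V n := fun s i => σ s • act (g s) (W s (m' s) i) with hU
  have hUT : ∀ s, TT C Γ c (U s) := fun s =>
    (hTBX n C Γ K c τ hD _ (hWT s (m' s))).2.2.1 (g s) (hg s) (σ s) (hσ s)
  have hUW : ∀ s, Ws C τ (U s) = img (g s) (Ws C τ w) := by
    intro s
    rw [← hWsW s (m' s)]
    exact ((hPAC n C Γ hCC (g s) (hg s) (σ s) (hσ s)).2.2 K τ (W s (m' s))).2
  have hxtU : ∀ s b, xt (U s) b =
      σ s • act (g s) (xt w (fun i => (T (m' s) i - s * a i) + b i)) := by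
    intro s b
    rw [← hxtW s (m' s) b]
    exact xt_act (g s) (σ s) (W s (m' s)) b
  have hTN1 : ∀ s, TN C ε (W s (m s)) (U s) := hTN
  have hsW : ∀ s, ∑ i, W s (m s) i ∈ closure C := fun s =>
    subset_closure (sum_mem_C (hWT s (m s)).pes.1)
  have hsU : ∀ s, ∑ i, U s i ∈ closure C := fun s => subset_closure (sum_mem_C (hUT s).pes.1)
  have hTN8 : ∀ s, TN C (1 / 8) (W s (m s)) (U s) := fun s =>
    TN.mono hPC hε8 (hsW s) (hsU s) (hTN1 s)
  -- large `s`: the two comparisons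
  obtain ⟨s0, hs0⟩ := ha (fun _ => 0)
  have hcne0 : ∀ s : ℕ, s0 ≤ (s : ℝ) → Cne c τ (fun i => s * a i) := by
    intro s hs
    have h1 := hs0 s hs
    simpa using h1
  have hcmp : ∀ s : ℕ, s0 ≤ (s : ℝ) →
      (4 : ℝ) • (σ s • act (g s) (xt w (T (m' s)))) - xt w (T (m s)) ∈ closure C ∧
      (4 : ℝ) • xt w (T (m s)) - σ s • act (g s) (xt w (T (m' s))) ∈ closure C := by
    intro s hs
    have e1 : xt (W s (m s)) (fun i => s * a i) = xt w (T (m s)) := by
      rw [hxtW]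
      congr 1
      funext i
      ring
    have e2 : xt (U s) (fun i => s * a i) = σ s • act (g s) (xt w (T (m' s))) := by
      rw [hxtU]
      congr 3
      funext i
      ring
    have hτs : ∀ i, (fun i => (s : ℝ) * a i) (τ i) = (fun i => (s : ℝ) * a i) i := by
      intro i
      show (s : ℝ) * a (τ i) = s * a i
      rw [hτa]
    constructor
    · have h1 := hnrc (U s) (W s (m s)) (hUT s) (hWT s (m s)) (TN.symm (hTN1 s)) _ (hcne0 s hs)
      have h2 := hCMW n C Γ K c τ hD (U s) (W s (m s)) (hUT s) (hWT s (m s)) (TN.symm (hTN8 s))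
        (fun i => s * a i) hτs h1
      rw [e1, e2] at h2
      exact h2
    · have h1 := hnrc (W s (m s)) (U s) (hWT s (m s)) (hUT s) (hTN1 s) _ (hcne0 s hs)
      have h2 := hCMW n C Γ K c τ hD (W s (m s)) (U s) (hWT s (m s)) (hUT s) (hTN8 s)
        (fun i => s * a i) hτs h1
      rw [e1, e2] at h2
      exact h2
  -- finitely many group elements
  have hfin : ∀ m0 m0' : Fin (N + 1), {γ : GL (Fin n) ℝ | γ ∈ Γ ∧ ∃ s : ℝ, 0 < s ∧
      (4 : ℝ) • (s • act γ (xt w (T m0'))) - xt w (T m0) ∈ closure C ∧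
      (4 : ℝ) • xt w (T m0) - s • act γ (xt w (T m0')) ∈ closure C}.Finite := fun m0 m0' =>
    hFNT n C Γ hCC _ (xt_mem hw.pes.1 _) _ (xt_mem hw.pes.1 _)
  have hevS : ∀ᶠ s : ℕ in atTop, s0 ≤ (s : ℝ) := by
    filter_upwards [eventually_ge_atTop ⌈s0⌉₊] with s hs
    exact (Nat.le_ceil s0).trans (by exact_mod_cast hs)
  obtain ⟨m0, m0', γ, hfreq⟩ : ∃ (m0 m0' : Fin (N + 1)) (γ : GL (Fin n) ℝ),
      ∃ᶠ s : ℕ in atTop, m s = m0 ∧ m' s = m0' ∧ g s = γ := by
    by_contra hcon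
    push Not at hcon
    have h1 : ∀ᶠ s : ℕ in atTop, ∀ (m0 m0' : Fin (N + 1)), ∀ γ ∈ {γ : GL (Fin n) ℝ | γ ∈ Γ ∧
        ∃ s : ℝ, 0 < s ∧ (4 : ℝ) • (s • act γ (xt w (T m0'))) - xt w (T m0) ∈ closure C ∧
        (4 : ℝ) • xt w (T m0) - s • act γ (xt w (T m0')) ∈ closure C},
        ¬ (m s = m0 ∧ m' s = m0' ∧ g s = γ) := by
      refine eventually_all.2 fun m0 => eventually_all.2 fun m0' =>
        (eventually_all_finite (hfin m0 m0')).2 fun γ _ => ?_
      filter_upwards [hcon m0 m0' γ] with s h1 h2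
      exact h1 h2.1 h2.2.1 h2.2.2
    obtain ⟨s, hs1, hs2⟩ := (h1.and hevS).exists
    have h2 := hcmp s hs2
    exact hs1 (m s) (m' s) (g s) ⟨hg s, σ s, hσ s, h2.1, h2.2⟩ ⟨rfl, rfl, rfl⟩
  obtain ⟨s1, ⟨hm1, hm1', hg1⟩, hs1⟩ := (hfreq.and_eventually hevS).exists
  have hγ : γ ∈ Γ := hg1 ▸ hg s1
  -- the second tuple
  set w2 : Fin K → V n := fun i => (1 : ℝ) • act γ (w i) with hw2
  have hw2T : TT C Γ c w2 := (hTBX n C Γ K c τ hD w hw).2.2.1 γ hγ 1 one_pos
  have hw2W : Ws C τ w2 = img γ (Ws C τ w) :=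
    ((hPAC n C Γ hCC γ hγ 1 one_pos).2.2 K τ w).2
  have hnear : ∀ t : Fin K → ℝ, NearS C 2 (Ws C τ w2) (xt w t) := by
    intro t
    obtain ⟨s2, hs2⟩ := ha (fun i => t i - T m0 i)
    have hev2 : ∀ᶠ s : ℕ in atTop, s2 ≤ (s : ℝ) := by
      filter_upwards [eventually_ge_atTop ⌈s2⌉₊] with s hs
      exact (Nat.le_ceil s2).trans (by exact_mod_cast hs)
    obtain ⟨s, ⟨hm2, hm2', hg2⟩, hs⟩ := (hfreq.and_eventually hev2).exists
    have h1 := hnrc (W s (m s)) (U s) (hWT s (m s)) (hUT s) (hTN1 s) _ (hs2 s hs)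
    have e1 : xt (W s (m s)) (fun i => s * a i + (t i - T m0 i)) = xt w t := by
      rw [hxtW, hm2]
      congr 1
      funext i
      ring
    rw [e1, hUW, hg2, ← hw2W] at h1
    exact h1
  have hall : ∀ i, w i ∈ Ws C τ w2 := hNAL n C Γ K c τ hD w w2 hw hw2T hnear
  have heq := (hALW n C Γ K c τ hD w w2 hw hw2T hall).1
  refine ⟨m0, m0', ?_, γ, hγ, σ s1, hσ s1, ?_, ?_, ?_⟩
  · rw [← hm1, ← hm1']
    exact hmm s1
  · rw [← hw2W]
    exact heq.symm
  · have h2 := (hcmp s1 hs1).1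
    rw [hm1, hm1', hg1] at h2
    exact h2
  · have h2 := (hcmp s1 hs1).2
    rw [hm1, hm1', hg1] at h2
    exact h2

end Pool.Agent.NTW.H16
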